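import Mathlib
import Pool.Agent.H347R3.SchJoin

/-! The Schunck classes `X` with `X ^ 2 = X` do not form a sublattice of the lattice of Schunck
classes: they are not closed under joins. -/

set_option autoImplicit false

namespace Pool.Agent.Results.MP_d8b6f8_al.JoinFails

open Pool.Agent.H347R3.Sch

/-- There are Schunck classes `X`, `Y` with `X ^ 2 = X` and `Y ^ 2 = Y` such that the join
`X ∨ Y = ⟨X, Y⟩` is not closed under extensions; so the Schunck classes `X` with `X ^ 2 = X` do not
form a sublattice. -/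
theorem result :
    (∃ X ∈ SqFam, ∃ Y ∈ SqFam, ∃ (G : Type) (_ : Group G),
      prodClass (joinC X Y) (joinC X Y) G ∧ ¬ joinC X Y G) ∧ ¬ IsSublat SqFam := by
  have key : prodClass (joinC (cls bX) (cls bY)) (joinC (cls bX) (cls bY)) Gp :=
    ⟨inferInstance, inferInstance, Nn, inferInstance, join_Nn, join_quot⟩
  refine ⟨⟨cls bX, X_mem, cls bY, Y_mem, Gp, inferInstance, key, not_join_Gp⟩, ?_⟩
  intro h
  exact not_join_Gp (((h _ X_mem _ Y_mem).1.2 Gp).1 key)

end Pool.Agent.Results.MP_d8b6f8_al.JoinFails
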